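import Pool.Agent.H75.QA.Stmt

/-!
# Constant-depth circuits with general gates: the definitions used in the statement
-/

namespace Pool.Agent.H75.QG

/-- A circuit with `s` gates over the inputs `I`. The sources of a gate are literals and the values or
negated values of earlier gates, any number of them. A gate is an arbitrary function of its sources which is
constant on all assignments with more than `M` true sources. (For example: the disjunction and the
conjunction of any number of sources, arbitrary functions of at most `M` sources, thresholds up to `M`.) -/
structure GCircuit (I : Type) (s M : ℕ) where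
  /-- the literals feeding gate `g`; `(i, b)` is the literal which is true iff input `i` has value `b` -/
  lits : Fin s → Set (I × Bool)
  /-- the gates feeding gate `g`; the source `(g', b)` is true iff gate `g'` has value `b` -/
  wires : Fin s → Set (Fin s × Bool)
  /-- the gates are numbered in topological order -/
  topo : ∀ g, ∀ c ∈ wires g, c.1 < g
  /-- `op g A B`: the value of gate `g` when `A` is the set of its true literals and `B` the set of its
  other true sources -/
  op : Fin s → Set (I × Bool) → Set (Fin s × Bool) → Prop
  /-- the value of gate `g` when more than `M` sources are true -/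
  dflt : Fin s → Prop
  /-- the gates are constant when more than `M` sources are true -/
  op_eq : ∀ g, ∀ A ⊆ lits g, ∀ B ⊆ wires g, (M : ℕ∞) < A.encard + B.encard → (op g A B ↔ dflt g)
  /-- the output gate -/
  out : Fin s

/-- Gate `g` has the value true at the input `y`. -/
def GCircuit.Holds {I : Type} {s M : ℕ} (C : GCircuit I s M) (y : I → Bool) (g : Fin s) : Prop :=
  C.op g {c | c ∈ C.lits g ∧ y c.1 = c.2} {c | ∃ _h : c ∈ C.wires g, (C.Holds y c.1 ↔ c.2 = true)}
termination_by g
decreasing_by exact C.topo _ _ (by assumption)

/-- The circuit has depth at most `d`: there are no `d + 1` gates each feeding the next. -/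
def GCircuit.DepthLE {I : Type} {s M : ℕ} (C : GCircuit I s M) (d : ℕ) : Prop :=
  ∃ lev : Fin s → ℕ, (∀ g, lev g < d) ∧ ∀ g, ∀ c ∈ C.wires g, lev c.1 < lev g

/-- The answers of the circuits `F i` at the input `φ`. -/
def answersG {I κ : Type} {s M : ℕ} (F : κ → GCircuit I s M) (φ : I → Bool) : κ → Prop :=
  fun i => (F i).Holds φ (F i).out

end Pool.Agent.H75.QG
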