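import Pool.Agent.H75.QA.TargetsU

/-!
# General gates: targets for the parameters
-/

namespace Pool.Agent.H75.QG

open Finset Filter Pool.Agent.H68.AC Pool.Agent.H75.QA

/-- The error term for deep trees. -/
noncomputable def deepG (k s w M : ℕ) : ℝ := 2 ^ k * (s * (3 / 2 * (16 * (M + 1)) ^ k / 2 ^ (w + 1)))

/-- The numerical condition. -/
def HNG (n C k N s w β h d γ : ℕ) (p q : ℝ) : Prop :=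
  (N * p) ^ k + 4 * (n : ℝ) ^ C * √(eta k N s w β h d γ q + 2 ^ (n ^ C) * deepG k s w (n ^ C)) ≤
    1 / (n : ℝ) ^ C

/-- PARG: the parameters, uniformly in the depth `d ≤ √n`. -/
def T_PARG : Prop := ∀ (C : ℕ) (ε : ℝ), 0 < ε → ε ≤ 1 → ∃ β : ℝ, 0 < β ∧ β < 1 ∧ ∀ c₀ : ℝ, 0 < c₀ →
  ∃ c : ℕ, ∀ᶠ n : ℕ in atTop, ∀ d : ℕ, 1 ≤ d → d ^ 2 ≤ n → ∃ (k ℓ w r γ : ℕ) (δ p q : ℝ),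
    0 < δ ∧ γ * δ ≤ 1 / 16 ∧ c₀ ≤ δ * r ∧ c₀ * (1 + γ) ≤ r ∧ 1 ≤ k ∧ 1 ≤ ℓ ∧ k * ℓ ≤ n ∧
    k * (2 ^ ℓ) ^ (r + 1) ≤ n ^ (c * d) ∧ (r + 1) * ℓ + 1 ≤ c * d * Nat.log 2 n ∧
    1 ≤ ⌊δ * k⌋₊ ∧ 1 ≤ w ∧ 0 < p ∧ p ≤ 1 / 2 ∧ 0 < q ∧ q ≤ 1 / 2 ∧
    64 * ((n : ℝ) ^ C + 1) * w * q ≤ p ∧
    ∀ s : ℕ, (s : ℝ) ≤ 2 ^ ((1 - ε) * n) →
      HNG n C k (2 ^ ℓ) s w ⌊β * k⌋₊ ⌊δ * k⌋₊ d γ p q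

end Pool.Agent.H75.QG
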