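import Pool.Agent.H75.QG.Defs
import Pool.Agent.H75.QG.Stmt
import Pool.Agent.H75.QG.TargetsP

/-!
# General gates: module targets

Everything is the analogue, for gates which are arbitrary functions of their sources, constant when more
than `M` sources are true, of the modules of `Pool/Agent/H68/AC` and `Pool/Agent/H75/QA`.
-/

namespace Pool.Agent.H75.QG

open Finset Filter Pool.Agent.H68.AC Pool.Agent.H75.QA

/-! ## Scanning -/

/-- SCV: the scanned values are the values of the statements. -/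
def T_SCV : Prop := ∀ (V : Type) [DecidableEq V] (cs : List (Bool × DT V)) (κ : PA V) (y : V → Bool),
  Ext κ y → (scan cs κ).1 <+: cs.map (fun c => c.2.eval y == c.1) ∧
    ((scan cs κ).2 = none → (scan cs κ).1 = cs.map (fun c => c.2.eval y == c.1))

/-- SCS: the path found by the scan. -/
def T_SCS : Prop := ∀ (V : Type) [DecidableEq V] (cs : List (Bool × DT V)) (κ : PA V)
  (τ : List (V × Bool)), (scan cs κ).2 = some τ →
  fr κ τ ≠ [] ∧ Agree κ τ ∧ Cons τ ∧ ∃ c ∈ cs, IsPath c.2 τ c.1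

/-- SCM: stability of the scan under extensions which agree with the path found. -/
def T_SCM : Prop := ∀ (V : Type) [DecidableEq V] (cs : List (Bool × DT V)) (κ κ' : PA V)
  (τ : List (V × Bool)), (scan cs κ).2 = some τ → Sub κ κ' → Agree κ' τ →
  nxk ((scan cs κ).1.count true) cs κ' = some τ

/-- SCL: locality of the scan. -/
def T_SCL : Prop := ∀ (V : Type) [DecidableEq V] (D : Set V) (κA κB : PA V)
  (csA csB : List (Bool × DT V)), Sim D κA csA csB → ExtOn D κA κB →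
  (scan csB κB).1 <+: (scan csA κA).1 ∧ ((scan csB κB).2 = none → scan csA κA = scan csB κB) ∧
  (∀ τ, (scan csB κB).2 = some τ → Avoid D τ → scan csA κA = scan csB κB)

/-! ## Canonical trees -/

/-- BPNG: the queries of a block path are free and distinct. -/
def T_BPNG : Prop := ∀ (V : Type) [DecidableEq V] [Fintype V] (M : ℕ) (cs : List (Bool × DT V))
  (κ : PA V) (π : List (List (V × Bool))), IsBPG M cs κ π →
  (π.flatten.map Prod.fst).Nodup ∧ (∀ c ∈ π.flatten, κ c.1 = none) ∧ π.length ≤ Fintype.card V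

/-- BPSG: block paths with one more block. -/
def T_BPSG : Prop := ∀ (V : Type) [DecidableEq V] (M : ℕ) (cs : List (Bool × DT V)) (κ : PA V)
  (π : List (List (V × Bool))) (α : List (V × Bool)), IsBPG M cs κ (π ++ [α]) ↔
  (IsBPG M cs κ π ∧ ∃ τ, nx M cs (updL κ π.flatten) = some τ ∧
    α.map Prod.fst = fr (updL κ π.flatten) τ)

/-- BPFM: membership in the finite set of block paths. -/
def T_BPFM : Prop := ∀ (V : Type) [DecidableEq V] (M : ℕ) (cs : List (Bool × DT V)) (n : ℕ) (κ : PA V)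
  (π : List (List (V × Bool))), π ∈ BPFG M cs n κ ↔ IsBPG M cs κ π ∧ π.length ≤ n

/-- CANEG: the canonical tree computes the gate. -/
def T_CANEG : Prop := ∀ (V : Type) [DecidableEq V] [Fintype V] (M : ℕ) (f : List Bool → Bool)
  (b : Bool) (cs : List (Bool × DT V)) (n : ℕ) (κ : PA V) (y : V → Bool),
  (∀ l, l.length = cs.length → M < l.count true → f l = b) → nfree κ < n → Ext κ y →
  (canG M f b cs n κ).eval y = f (cs.map (fun c => c.2.eval y == c.1))

/-- CANPG: the paths of the canonical tree are block paths. -/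
def T_CANPG : Prop := ∀ (V : Type) [DecidableEq V] [Fintype V] (M : ℕ) (f : List Bool → Bool)
  (b : Bool) (cs : List (Bool × DT V)) (n : ℕ) (κ : PA V) (ψ : List (V × Bool)) (c : Bool),
  nfree κ < n → IsPath (canG M f b cs n κ) ψ c →
  ∃ π, π.flatten = ψ ∧ IsBPG M cs κ π ∧ nx M cs (updL κ ψ) = none ∧ c = lv M f b cs (updL κ ψ)

/-- CANBG: the block paths where the tree stops are paths of the canonical tree. -/
def T_CANBG : Prop := ∀ (V : Type) [DecidableEq V] [Fintype V] (M : ℕ) (f : List Bool → Bool)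
  (b : Bool) (cs : List (Bool × DT V)) (n : ℕ) (κ : PA V) (π : List (List (V × Bool))),
  nfree κ < n → IsBPG M cs κ π → nx M cs (updL κ π.flatten) = none →
  IsPath (canG M f b cs n κ) π.flatten (lv M f b cs (updL κ π.flatten))

/-- LOCG: locality of block paths. -/
def T_LOCG : Prop := ∀ (V : Type) [DecidableEq V] [Fintype V] (M : ℕ) (f : List Bool → Bool) (b : Bool)
  (D : Set V) (κA κB : PA V) (csA csB : List (Bool × DT V)) (π : List (List (V × Bool))),
  Sim D κA csA csB → ExtOn D κA κB → IsBPG M csB κB π → Avoid D π.flatten →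
  IsBPG M csA κA π ∧ (nx M csB (updL κB π.flatten) = none →
    nx M csA (updL κA π.flatten) = none ∧
    lv M f b csA (updL κA π.flatten) = lv M f b csB (updL κB π.flatten))

/-- EXTG: a block path extends to a full path whose further queries are answered by `y`. -/
def T_EXTG : Prop := ∀ (V : Type) [DecidableEq V] [Fintype V] (M : ℕ) (f : List Bool → Bool) (b : Bool)
  (cs : List (Bool × DT V)) (n : ℕ) (κ : PA V) (π : List (List (V × Bool))) (y : V → Bool),
  nfree κ < n → IsBPG M cs κ π →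
  ∃ ψ c, IsPath (canG M f b cs n κ) (π.flatten ++ ψ) c ∧ ∀ u ∈ ψ, y u.1 = u.2

/-! ## The switching lemma -/

/-- The weight of a list of answered queries: `1 / (8 (M + 1))` for queries in `P`, `μ` for the others. -/
noncomputable def gG {V : Type} [DecidableEq V] (M : ℕ) (μ : ℝ) (P : Finset V) (ψ : List (V × Bool)) : ℝ :=
  (ψ.map (fun c => if c.1 ∈ P then (1 / (8 * ((M : ℝ) + 1))) else μ)).prod

/-- The possible decodings. -/
def IsDG {V : Type} [DecidableEq V] (M : ℕ) (cs : List (Bool × DT V)) (P : Finset V) :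
    PA V → List (List (V × Bool)) → Prop
  | _, [] => True
  | κ, α :: π => (∃ t ≤ M, ∃ τ, nxk t cs κ = some τ ∧ α ≠ [] ∧ ∃ B : Finset V,
      (∀ v ∈ P, v ∈ τ.map Prod.fst → (v ∈ B ↔ κ v = none)) ∧
      α.map Prod.fst = ((τ.map Prod.fst).filter (fun v => v ∈ B)).dedup) ∧ IsDG M cs P (updL κ α) π

/-- SWSG: the weighted number of decodings. -/
def T_SWSG : Prop := ∀ (V : Type) [DecidableEq V] [Fintype V] (M : ℕ) (cs : List (Bool × DT V)) (w : ℕ)
  (P : Finset V) (κ : PA V) (μ : ℝ) (S : Finset (List (List (V × Bool)))), 1 ≤ w →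
  (∀ c ∈ cs, c.2.depth ≤ w) → 0 ≤ μ → 16 * ((M : ℝ) + 1) * w * μ ≤ 1 → (∀ π ∈ S, IsDG M cs P κ π) →
  ∑ π ∈ S, gG M μ P π.flatten ≤ 3 / 2

/-- SWMG: the encoding of a pair (restriction, block path) by a heavier restriction. -/
def T_SWMG : Prop := ∀ (V : Type) [DecidableEq V] [Fintype V] (M : ℕ) (cs : List (Bool × DT V))
  (P : Finset V) (ρ : PA V) (R : PA V) (π : List (List (V × Bool))),
  IsBPG M cs (mask P (mrg ρ R)) π → ∃ R' : PA V,
    (∀ v, (v ∈ P ∨ v ∉ π.flatten.map Prod.fst) → R' v = R v) ∧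
    (∀ v, v ∉ P → v ∈ π.flatten.map Prod.fst → R v = none ∧ R' v ≠ none) ∧
    IsDG M cs P (mask P (mrg ρ R')) π

/-- SWG: the switching lemma with planted set `P`. -/
def T_SWG : Prop := ∀ (V : Type) [DecidableEq V] [Fintype V] (M : ℕ) (cs : List (Bool × DT V)) (w : ℕ)
  (P : Finset V) (ρ : PA V) (p q : ℝ) (n : ℕ), 1 ≤ w → (∀ c ∈ cs, c.2.depth ≤ w) →
  0 < p → p ≤ 1 / 2 → 0 < q → q ≤ 1 / 2 → 64 * ((M : ℝ) + 1) * w * q ≤ p →
  ∑ R : PA V, wt q p R * ∑ π ∈ BPFG M cs n (mask P (mrg ρ R)), gG M 2 P π.flatten ≤ 3 / 2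

/-! ## The levels of the circuit -/

/-- VALG: the value equation. -/
def T_VALG : Prop := ∀ (V : Type) (s d M : ℕ) (C : CktG V s d M) (y : V → Bool) (g : Fin s),
  C.val y g = C.op g ((C.ch g).map (fun c => C.sval y c.2 == c.1))

/-- TEQG: the equation of the canonical trees. -/
def T_TEQG : Prop := ∀ (V : Type) [DecidableEq V] [Fintype V] (s d M : ℕ) (C : CktG V s d M)
  (P : Finset V) (R : Fin d → PA V) (g : Fin s),
  C.T P R g = canG M (C.op g) (C.df g) (C.cht P R g) (Fintype.card V + 1) (rho P R (C.lev g + 1))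

/-- INVG: what the trees depend on. -/
def T_INVG : Prop := ∀ (V : Type) [DecidableEq V] [Fintype V] (s d M : ℕ) (C : CktG V s d M)
  (P : Finset V) (R R' : Fin d → PA V),
  ((∀ j v, v ∉ P → R j v = R' j v) → (∀ j, rho P R j = rho P R' j) ∧ ∀ g, C.cht P R g = C.cht P R' g) ∧
  ((∀ j, ∀ v ∈ P, R j v = none) → (∀ j, rho P R j = rho ∅ R j) ∧ ∀ g, C.cht P R g = C.cht ∅ R g) ∧
  (∀ g, (∀ i : Fin d, i.1 < C.lev g → R i = R' i) → C.cht P R g = C.cht P R' g)

/-- CORG: the trees compute the values of the gates. -/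
def T_CORG : Prop := ∀ (V : Type) [DecidableEq V] [Fintype V] (s d M : ℕ) (C : CktG V s d M)
  (P : Finset V) (R : Fin d → PA V) (g : Fin s) (y : V → Bool), Ext (rho P R (C.lev g + 1)) y →
  (C.T P R g).eval y = C.val y g

/-- LOCWG: locality of the worlds. -/
def T_LOCWG : Prop := ∀ (V : Type) [DecidableEq V] [Fintype V] (s d M : ℕ) (C : CktG V s d M)
  (A B : Finset V) (R : Fin d → PA V) (g : Fin s), A ⊆ B →
  (∀ ψ c, IsPath (C.T B R g) ψ c → Avoid {v | v ∈ B ∧ v ∉ A} ψ → IsPath (C.T A R g) ψ c) ∧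
  (∀ π, IsBPG M (C.cht B R g) (rho B R (C.lev g + 1)) π → Avoid {v | v ∈ B ∧ v ∉ A} π.flatten →
    IsBPG M (C.cht A R g) (rho A R (C.lev g + 1)) π)

/-- AG: in a fixed world, all trees are shallow. -/
def T_AG : Prop := ∀ (V : Type) [DecidableEq V] [Fintype V] (s d M : ℕ) (C : CktG V s d M) (w : ℕ)
  (P : Finset V) (p q : ℝ), 1 ≤ w → 0 < p → p ≤ 1 / 2 → 0 < q → q ≤ 1 / 2 →
  64 * ((M : ℝ) + 1) * w * q ≤ p →
  ∑ R : Fin d → PA V, Wt q p R * ind (∃ g, w < (C.T P R g).depth) ≤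
    s * (3 / 2 * (16 * ((M : ℝ) + 1)) ^ P.card / 2 ^ (w + 1))

/-! ## Star patterns -/

/-- In the world with planted set `Q` the tree of gate `g` is shallow and some alive path of it queries all
variables in `P`. -/
def EAG {V : Type} [DecidableEq V] [Fintype V] {s d M : ℕ} (C : CktG V s d M) (w : ℕ) (P Q : Finset V)
    (S : Fin d → V → Bool) (y : V → Bool) (g : Fin s) : Prop :=
  (C.T Q (Rof S y) g).depth ≤ w ∧ ∃ ψ c, IsPath (C.T Q (Rof S y) g) ψ c ∧ Alive P S y (C.lev g) ψ ∧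
    ∀ v ∈ P, v ∈ ψ.map Prod.fst

/-- All trees in the worlds of the planted solution `x` are shallow. -/
def ShalG {k r s d M : ℕ} {A : Type} [DecidableEq A] [Fintype A] (C : CktG (VV k r A) s d M) (w : ℕ)
    (e : Fin k → Fin r → Fin k) (x : Fin k → A) (S : Fin d → VV k r A → Bool) (y : VV k r A → Bool) :
    Prop :=
  ∀ (H : Finset (Fin k)) (g : Fin s), (C.T (K e x H) (Rof S y) g).depth ≤ w

/-- ADEEPG: the trees are shallow with high probability. -/
def T_ADEEPG : Prop := ∀ (k r s d M : ℕ) (A : Type) [DecidableEq A] [Fintype A]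
  (C : CktG (VV k r A) s d M) (w : ℕ) (e : Fin k → Fin r → Fin k) (x : Fin k → A) (p q : ℝ), 1 ≤ w →
  0 < p → p ≤ 1 / 2 → 0 < q → q ≤ 1 / 2 → 64 * ((M : ℝ) + 1) * w * q ≤ p →
  ∑ S : Fin d → VV k r A → Bool, ∑ y : VV k r A → Bool, WS q S * wz p y *
    ind (¬ ShalG C w e x S y) ≤ deepG k s w M

/-- FLAG: the first-large argument for alive paths. -/
def T_FLAG : Prop := ∀ (k r s d M : ℕ) (A : Type) [DecidableEq A] [Fintype A]
  (C : CktG (VV k r A) s d M) (w : ℕ) (e : Fin k → Fin r → Fin k) (x : Fin k → A)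
  (S : Fin d → VV k r A → Bool) (y : VV k r A → Bool) (β h : ℕ), Expd e β h → 1 ≤ h →
  ShalG C w e x S y →
  (∀ H : Finset (Fin k), β < (VS e H).card → H.card ≤ 2 * h → ∀ g,
    ¬ EAG C w (K e x H) (K e x H) S y g) →
  ∀ g ψ c, IsPath (C.T (K e x univ) (Rof S y) g) ψ c → Alive (K e x univ) S y (C.lev g) ψ →
    (VS e (univ.filter (fun j => pos e x j ∈ ψ.map Prod.fst))).card ≤ β

/-- EABG: the expected number of alive paths which query the planted positions of `H`. -/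
def T_EABG : Prop := ∀ (k r s d M : ℕ) (A : Type) [DecidableEq A] [Fintype A]
  (C : CktG (VV k r A) s d M) (w : ℕ) (e : Fin k → Fin r → Fin k) (H : Finset (Fin k)) (q : ℝ)
  (y : VV k r A → Bool) (g : Fin s), 1 ≤ w → 0 < q → q ≤ 1 → q * w ≤ 1 →
  q ^ (d * H.card) * ∑ x : Fin k → A, ∑ S : Fin d → VV k r A → Bool,
    WS q S * ind (EAG C w (K e x H) (K e x H) S y g) ≤
    8 * (2 * w) ^ H.card * (Fintype.card A : ℝ) ^ (k - (VS e H).card)

/-- KEYG: for every input `y` planting a random solution rarely changes the value of a gate, unless the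
trees are deep. -/
def T_KEYG : Prop := ∀ (k r s d M : ℕ) (A : Type) [DecidableEq A] [Fintype A]
  (C : CktG (VV k r A) s d M) (w : ℕ) (e : Fin k → Fin r → Fin k) (q : ℝ) (β h γ : ℕ), Expd e β h →
  Expg e γ h → 1 ≤ h → 1 ≤ w → 0 < q → q ≤ 1 → q * w ≤ 1 → 1 ≤ Fintype.card A →
  ∀ (y : VV k r A → Bool) (g : Fin s),
  ∑ x : Fin k → A, ind (C.val (pl (K e x univ) y) g ≠ C.val y g) ≤
    (Fintype.card A : ℝ) ^ k * eta k (Fintype.card A) s w β h d γ q +
      ∑ x : Fin k → A, ∑ S : Fin d → VV k r A → Bool, WS q S * ind (¬ ShalG C w e x S y)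

/-! ## Encoding and main theorem -/

/-- ENBG: conversion of circuits. -/
def T_ENBG : Prop := ∀ (I V : Type) [Fintype I] (s d M : ℕ) (C : GCircuit I s M) (inc : I → Inp V),
  C.DepthLE d → ∃ C' : CktG V s d M, ∀ y, (C'.val y C'.out = true ↔ C.Holds (fun i => (inc i).val y) C.out)

/-- MAING: the main theorem. -/
def T_MAING : Prop := ∀ (C : ℕ) (ε : ℝ), 0 < ε → ∃ c : ℕ, ∀ᶠ n : ℕ in atTop, ∀ d : ℕ, 1 ≤ d →
  d ^ 2 ≤ n → ∀ m : ℕ, n ^ (c * d) ≤ m →
  ∃ (Ω : Type) (_ : Fintype Ω) (μ : Ω → ℝ) (φ₀ φ₁ : Ω → Fin m × Fin n × Bool → Bool),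
    (∀ ω, 0 ≤ μ ω) ∧ ∑ ω, μ ω = 1 ∧
    (∀ ω, ¬ Satisfiable (φ₀ ω) ∧ Satisfiable (φ₁ ω) ∧
      ∀ j, width (φ₀ ω) j ≤ c * d * Nat.log 2 n ∧ width (φ₁ ω) j ≤ c * d * Nat.log 2 n) ∧
    ∀ (κ : Type) [Fintype κ] (s : ℕ) (F : κ → GCircuit (Fin m × Fin n × Bool) s (n ^ C))
      (V : (Fin m × Fin n × Bool → Bool) → Verifier κ) (χ : ∀ φ, EuclideanSpace ℂ (Fin (V φ).dim)),
      Fintype.card κ ≤ 2 ^ (n ^ C) → (s : ℝ) ≤ 2 ^ ((1 - ε) * n) → (∀ i, (F i).DepthLE d) →
      (∀ φ, (V φ).T ≤ n ^ C) → (∀ φ, ‖χ φ‖ = 1) →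
      ∑ ω, μ ω * |(V (φ₀ ω)).prob (answersG F (φ₁ ω)) (χ (φ₀ ω)) -
        (V (φ₀ ω)).prob (answersG F (φ₀ ω)) (χ (φ₀ ω))| ≤ 1 / (n : ℝ) ^ C

end Pool.Agent.H75.QG
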