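import Pool.Agent.H75.QA.FinalU
import Pool.Agent.H75.QG.Main
import Pool.Agent.H75.QG.Key
import Pool.Agent.H75.QG.Eab
import Pool.Agent.H92.QG.Adeepg
import Pool.Agent.H92.QG.Flag
import Pool.Agent.H90.QG.ENBG
import Pool.Agent.H90.QG.LEVG
import Pool.Agent.H42.QG.SWG
import Pool.Agent.H33.QG.SWSG
import Pool.Agent.H33.QG.SWMG
import Pool.Agent.H33.QG.AG
import Pool.Agent.H54.QG.Locg
import Pool.Agent.H54.QG.Parg

/-!
# General gates: the main theorem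
-/

namespace Pool.Agent.H75.QG

open Finset Filter Pool.Agent.H68.AC Pool.Agent.H75.QA

theorem hSWG : T_SWG :=
  Pool.Agent.H42.QG.swg Pool.Agent.H33.QG.swsg (Pool.Agent.H33.QG.swmg scs_t scm_t bpng_t) bpng_t bpfm_t

theorem hAG : T_AG :=
  Pool.Agent.H33.QG.ag hSWG Pool.Agent.H90.AC.FUB Pool.Agent.H90.QG.invg canpg_t bpng_t bpfm_t

theorem hADEEPG : T_ADEEPG :=
  Pool.Agent.H92.QG.adeepg_t Pool.Agent.H90.QG.teqg Pool.Agent.H90.QA.PUSHS hAG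

theorem hCORG : T_CORG := Pool.Agent.H90.QG.corg caneg_t

theorem hLOCWG : T_LOCWG :=
  Pool.Agent.H90.QG.locwg caneg_t canpg_t canbg_t (Pool.Agent.H54.QG.LOCG scl_t)

theorem hFLAG : T_FLAG :=
  Pool.Agent.H92.QG.flag_t extg_t hLOCWG canpg_t bpsg_t bpng_t scs_t Pool.Agent.H90.QG.teqg

theorem hEABG : T_EABG :=
  eabg_t Pool.Agent.H90.QG.invg Pool.Agent.H90.QG.teqg Pool.Agent.H90.QA.CNT Pool.Agent.H90.QA.INDS

theorem hKEYG : T_KEYG := keyg_t hFLAG hEABG hLOCWG hCORG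

theorem MAING : T_MAING :=
  maing_t hKEYG hADEEPG Pool.Agent.H34.QA.NULLU hyb_t Pool.Agent.H33.QA.HGXU Pool.Agent.H54.QG.PARG
    Pool.Agent.H79.AC.ena Pool.Agent.H90.QG.enbg

end Pool.Agent.H75.QG
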