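import Pool.Agent.H75.QG.Stmt

/-!
# General gates: enlarging the bound in the definition of the gates
-/

namespace Pool.Agent.H75.QG

/-- The same circuit for a larger bound. -/
def GCircuit.lift {I : Type} {s M M' : ℕ} (h : M ≤ M') (F : GCircuit I s M) : GCircuit I s M' where
  lits := F.lits
  wires := F.wires
  topo := F.topo
  op := F.op
  dflt := F.dflt
  op_eq := fun g A hA B hB hlt => F.op_eq g A hA B hB (lt_of_le_of_lt (by exact_mod_cast h) hlt)
  out := F.out

theorem lift_holds {I : Type} {s M M' : ℕ} (h : M ≤ M') (F : GCircuit I s M) (y : I → Bool)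
    (g : Fin s) : (F.lift h).Holds y g ↔ F.Holds y g := by
  have key : ∀ N : ℕ, ∀ g : Fin s, (g : ℕ) < N → ((F.lift h).Holds y g ↔ F.Holds y g) := by
    intro N
    induction N with
    | zero => intro g hg; omega
    | succ N ih =>
      intro g hg
      have e : {c | ∃ _h : c ∈ (F.lift h).wires g, ((F.lift h).Holds y c.1 ↔ c.2 = true)} =
          {c | ∃ _h : c ∈ F.wires g, (F.Holds y c.1 ↔ c.2 = true)} := by
        apply Set.ext
        intro c
        constructor
        · rintro ⟨hc, h1⟩
          have h2 : c.1 < g := F.topo g c hc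
          exact ⟨hc, (ih c.1 (by omega)).symm.trans h1⟩
        · rintro ⟨hc, h1⟩
          have h2 : c.1 < g := F.topo g c hc
          exact ⟨hc, (ih c.1 (by omega)).trans h1⟩
      rw [GCircuit.Holds, GCircuit.Holds, e]
      exact Iff.rfl
  exact key s g g.2

end Pool.Agent.H75.QG
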