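import Pool.Agent.H75.QG.Scn

/-!
# General gates: canonical trees and block paths
-/

namespace Pool.Agent.H75.QG

open Finset Pool.Agent.H68.AC

/-- What is known when the canonical tree queries a path. -/
theorem nx_some {V : Type} [DecidableEq V] {M : ℕ} {cs : List (Bool × DT V)} {κ : PA V}
    {τ : List (V × Bool)} (h : nx M cs κ = some τ) :
    (scan cs κ).2 = some τ ∧ (scan cs κ).1.count true ≤ M := by
  unfold nx at h
  split_ifs at h with h1
  exact ⟨h, by omega⟩

theorem nx_fr {V : Type} [DecidableEq V] {M : ℕ} {cs : List (Bool × DT V)} {κ : PA V}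
    {τ : List (V × Bool)} (h : nx M cs κ = some τ) : fr κ τ ≠ [] := (scs_t V cs κ τ (nx_some h).1).1

theorem bpsg_t : T_BPSG := by
  intro V _ M cs κ π α
  induction π generalizing κ with
  | nil => simp [IsBPG, updL]
  | cons β π ih =>
    simp only [List.cons_append, IsBPG, List.flatten_cons, updL_append, ih]
    constructor
    · rintro ⟨h1, h2, h3⟩; exact ⟨⟨h1, h2⟩, h3⟩
    · rintro ⟨⟨h1, h2⟩, h3⟩; exact ⟨h1, h2, h3⟩

theorem bpng_aux {V : Type} [DecidableEq V] (M : ℕ) (cs : List (Bool × DT V)) (κ : PA V)
    (π : List (List (V × Bool))) (h : IsBPG M cs κ π) :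
    (π.flatten.map Prod.fst).Nodup ∧ (∀ c ∈ π.flatten, κ c.1 = none) ∧ π.length ≤ π.flatten.length := by
  induction π generalizing κ with
  | nil => simp
  | cons α π ih =>
    obtain ⟨⟨τ, hx, hα⟩, hr⟩ := h
    have hne := nx_fr hx
    obtain ⟨h1, h2, h3⟩ := ih _ hr
    have h4 : ∀ c ∈ α, κ c.1 = none := (block_free hne hα).2
    refine ⟨?_, ?_, ?_⟩
    · rw [List.flatten_cons, List.map_append, List.nodup_append']
      refine ⟨by rw [hα]; exact fr_nodup _ _, h1, ?_⟩
      intro v hv hv'
      obtain ⟨c, hc, rfl⟩ := List.mem_map.1 hv'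
      exact updL_ne_none κ α c.1 hv (h2 c hc)
    · intro c hc
      rw [List.flatten_cons, List.mem_append] at hc
      rcases hc with hc | hc
      · exact h4 c hc
      · by_contra hk
        exact updL_ne_none_of κ α c.1 hk (h2 c hc)
    · have := List.length_pos_iff.2 (block_free hne hα).1
      simp only [List.length_cons, List.flatten_cons, List.length_append]
      omega

theorem bpng_t : T_BPNG := by
  intro V _ _ M cs κ π h
  obtain ⟨h1, h2, h3⟩ := bpng_aux M cs κ π h
  refine ⟨h1, h2, h3.trans ?_⟩
  have := h1.length_le_card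
  rwa [List.length_map] at this

theorem bpfm_t : T_BPFM := by
  intro V _ M cs n κ π
  induction n generalizing κ π with
  | zero =>
    cases π with
    | nil => simp [BPFG, IsBPG]
    | cons α π => simp [BPFG]
  | succ n ih =>
    cases π with
    | nil => simp [BPFG, IsBPG]
    | cons α π =>
      cases hn : nx M cs κ with
      | none => simp [BPFG, IsBPG, hn]
      | some τ => simp [BPFG, IsBPG, hn, ih, mem_ansF, and_assoc]

/-- The value at a leaf. -/
theorem lv_eq {V : Type} [DecidableEq V] {M : ℕ} {f : List Bool → Bool} {b : Bool}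
    {cs : List (Bool × DT V)} {κ : PA V} {y : V → Bool}
    (hf : ∀ l, l.length = cs.length → M < l.count true → f l = b) (hy : Ext κ y)
    (hx : nx M cs κ = none) : lv M f b cs κ = f (cs.map (fun c => c.2.eval y == c.1)) := by
  obtain ⟨h1, h2⟩ := scv_t V cs κ y hy
  unfold nx at hx
  unfold lv
  split_ifs at hx ⊢ with h3
  · refine (hf _ (by simp) (lt_of_lt_of_le h3 ?_)).symm
    exact h1.sublist.count_le _
  · rw [h2 hx]

theorem caneg_t : T_CANEG := by
  intro V _ _ M f b cs n
  induction n with
  | zero => intro κ y _ h; omega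
  | succ n ih =>
    intro κ y hf hn hy
    cases hx : nx M cs κ with
    | none =>
      simp only [canG, hx, DT.eval]
      exact lv_eq hf hy hx
    | some τ =>
      simp only [canG, hx]
      rw [qa_eval]
      have hα : (((fr κ τ).map (fun v => (v, y v)))).map Prod.fst = fr κ τ := by
        rw [List.map_map]; exact List.map_id _
      obtain ⟨h1, h2⟩ := block_free (nx_fr hx) hα
      have := nfree_updL h1 h2
      exact ih _ y hf (by omega) (ext_updL hy _)

theorem canpg_t : T_CANPG := by
  intro V _ _ M f b cs n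
  induction n with
  | zero => intro κ ψ c h; omega
  | succ n ih =>
    intro κ ψ c hn hp
    cases hx : nx M cs κ with
    | none =>
      simp only [canG, hx] at hp
      cases hp
      exact ⟨[], rfl, trivial, hx, rfl⟩
    | some τ =>
      simp only [canG, hx] at hp
      obtain ⟨α, ψ', rfl, hα, hp⟩ := qa_path.1 hp
      obtain ⟨h1, h2⟩ := block_free (nx_fr hx) hα
      have := nfree_updL h1 h2
      obtain ⟨π, h3, h4, h5, h6⟩ := ih (updL κ α) ψ' c (by omega) hp
      refine ⟨α :: π, by simp [h3], ⟨⟨τ, hx, hα⟩, h4⟩, ?_, ?_⟩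
      · rw [updL_append]; exact h5
      · rw [updL_append]; exact h6

theorem canbg_t : T_CANBG := by
  intro V _ _ M f b cs n
  induction n with
  | zero => intro κ π h; omega
  | succ n ih =>
    intro κ π hn hb hs
    cases π with
    | nil =>
      simp only [List.flatten_nil, updL] at hs ⊢
      simp only [canG, hs]
      exact IsPath.leaf _
    | cons α π =>
      obtain ⟨⟨τ, hx, hα⟩, hb⟩ := hb
      obtain ⟨h1, h2⟩ := block_free (nx_fr hx) hα
      have := nfree_updL h1 h2
      rw [List.flatten_cons, updL_append] at hs ⊢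
      simp only [canG, hx]
      exact qa_path.2 ⟨α, π.flatten, rfl, hα, ih (updL κ α) π (by omega) hb hs⟩

theorem extg_t : T_EXTG := by
  intro V _ _ M f b cs n κ π y
  induction π generalizing n κ with
  | nil =>
    intro _ _
    obtain ⟨ψ, h1, h2⟩ := exists_path (canG M f b cs n κ) y
    exact ⟨ψ, _, h1, h2⟩
  | cons α π ih =>
    intro hn hb
    cases n with
    | zero => omega
    | succ n =>
      obtain ⟨⟨τ, hx, hα⟩, hb⟩ := hb
      obtain ⟨h1, h2⟩ := block_free (nx_fr hx) hα
      have := nfree_updL h1 h2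
      obtain ⟨ψ, c, h3, h4⟩ := ih n (updL κ α) (by omega) hb
      refine ⟨ψ, c, ?_, h4⟩
      simp only [canG, hx, List.flatten_cons]
      exact qa_path.2 ⟨α, π.flatten ++ ψ, by rw [List.append_assoc], hα, h3⟩

end Pool.Agent.H75.QG
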