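import Pool.Agent.H68.AC.Basic
import Pool.Agent.H68.AC.FPs
import Pool.Agent.H68.AC.Can

/-!
# General gates: definitions for the proof

A gate is a function of the truth values of the statements `tᵢ = sᵢ` which is constant when more than `M` of
them are true. The canonical tree scans the list for the first statement which is not decided.
-/

namespace Pool.Agent.H75.QG

open Finset Pool.Agent.H68.AC

section trees

variable {V : Type} [DecidableEq V]

/-- The truth values of the decided statements before the first undecided one, and the leftmost path of
the first undecided one (if there is one). -/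
def scan : List (Bool × DT V) → PA V → List Bool × Option (List (V × Bool))
  | [], _ => ([], none)
  | c :: cs, κ =>
    match fp c.1 c.2 κ with
    | none => (false :: (scan cs κ).1, (scan cs κ).2)
    | some τ => if fr κ τ = [] then (true :: (scan cs κ).1, (scan cs κ).2) else ([], some τ)

/-- The leftmost path of the `t + 1`-st statement which is not decided negatively. -/
def nxk : ℕ → List (Bool × DT V) → PA V → Option (List (V × Bool))
  | _, [], _ => none
  | t, c :: cs, κ =>
    match fp c.1 c.2 κ with
    | none => nxk t cs κ
    | some τ => match t with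
      | 0 => some τ
      | t + 1 => nxk t cs κ

/-- The path queried next by the canonical tree. -/
def nx (M : ℕ) (cs : List (Bool × DT V)) (κ : PA V) : Option (List (V × Bool)) :=
  if M < (scan cs κ).1.count true then none else (scan cs κ).2

/-- The value of the gate at a leaf of the canonical tree. -/
def lv (M : ℕ) (f : List Bool → Bool) (b : Bool) (cs : List (Bool × DT V)) (κ : PA V) : Bool :=
  if M < (scan cs κ).1.count true then b else f (scan cs κ).1

/-- The canonical decision tree (with fuel) of the gate `f` (constant `b` when more than `M` statements are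
true). -/
def canG (M : ℕ) (f : List Bool → Bool) (b : Bool) (cs : List (Bool × DT V)) : ℕ → PA V → DT V
  | 0, _ => .leaf false
  | n + 1, κ =>
    match nx M cs κ with
    | none => .leaf (lv M f b cs κ)
    | some τ => qa (fr κ τ) κ (canG M f b cs n)

/-- `π` is a block path. -/
def IsBPG (M : ℕ) (cs : List (Bool × DT V)) : PA V → List (List (V × Bool)) → Prop
  | _, [] => True
  | κ, α :: π => (∃ τ, nx M cs κ = some τ ∧ α.map Prod.fst = fr κ τ) ∧ IsBPG M cs (updL κ α) π

/-- The finite set of all block paths with at most `n` blocks. -/
def BPFG (M : ℕ) (cs : List (Bool × DT V)) : ℕ → PA V → Finset (List (List (V × Bool)))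
  | 0, _ => {[]}
  | n + 1, κ => {[]} ∪ (match nx M cs κ with
      | none => ∅
      | some τ => (ansF (fr κ τ)).biUnion (fun α => (BPFG M cs n (updL κ α)).image (List.cons α)))

end trees

/-! ## Circuits -/

/-- Circuits with general gates. -/
structure CktG (V : Type) (s d M : ℕ) where
  ch : Fin s → List (Bool × (Inp V ⊕ Fin s))
  op : Fin s → List Bool → Bool
  df : Fin s → Bool
  op_df : ∀ g l, l.length = (ch g).length → M < l.count true → op g l = df g
  lev : Fin s → ℕ
  lev_lt : ∀ g, lev g < d
  acyc : ∀ g b g', (b, Sum.inr g') ∈ ch g → lev g' < lev g
  out : Fin s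

namespace CktG

variable {V : Type} {s d M : ℕ}

/-- The value of the gates, with fuel. -/
def valN (C : CktG V s d M) (y : V → Bool) : ℕ → Fin s → Bool
  | 0, _ => false
  | n + 1, g => C.op g ((C.ch g).map (fun c => Sum.elim (fun i => Inp.val y i) (valN C y n) c.2 == c.1))

/-- The value of gate `g` at input `y`. -/
def val (C : CktG V s d M) (y : V → Bool) (g : Fin s) : Bool := C.valN y d g

/-- The value of a source. -/
def sval (C : CktG V s d M) (y : V → Bool) : Inp V ⊕ Fin s → Bool :=
  Sum.elim (fun i => Inp.val y i) (C.val y)

variable [DecidableEq V] [Fintype V]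

/-- The canonical trees of the gates in the world with planted set `P`, with fuel. -/
def TN (C : CktG V s d M) (P : Finset V) (R : Fin d → PA V) : ℕ → Fin s → DT V
  | 0, _ => .leaf false
  | n + 1, g => canG M (C.op g) (C.df g)
      ((C.ch g).map (fun c => (c.1, Sum.elim Inp.tree (TN C P R n) c.2)))
      (Fintype.card V + 1) (rho P R (C.lev g + 1))

/-- The canonical tree of gate `g` in the world with planted set `P`. -/
def T (C : CktG V s d M) (P : Finset V) (R : Fin d → PA V) (g : Fin s) : DT V := C.TN P R d g

/-- The tree of a source. -/
def stree (C : CktG V s d M) (P : Finset V) (R : Fin d → PA V) : Inp V ⊕ Fin s → DT V :=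
  Sum.elim Inp.tree (C.T P R)

/-- The signed trees of the sources of gate `g`. -/
def cht (C : CktG V s d M) (P : Finset V) (R : Fin d → PA V) (g : Fin s) : List (Bool × DT V) :=
  (C.ch g).map (fun c => (c.1, C.stree P R c.2))

end CktG

end Pool.Agent.H75.QG
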