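import Pool.Agent.H75.QG.Targets

/-!
# General gates: scanning
-/

namespace Pool.Agent.H75.QG

open Finset Pool.Agent.H68.AC

theorem scan_none {V : Type} [DecidableEq V] {c : Bool × DT V} {cs : List (Bool × DT V)} {κ : PA V}
    (h : fp c.1 c.2 κ = none) :
    scan (c :: cs) κ = (false :: (scan cs κ).1, (scan cs κ).2) := by
  simp only [scan, h]

theorem scan_true {V : Type} [DecidableEq V] {c : Bool × DT V} {cs : List (Bool × DT V)} {κ : PA V}
    {τ : List (V × Bool)} (h : fp c.1 c.2 κ = some τ) (hf : fr κ τ = []) :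
    scan (c :: cs) κ = (true :: (scan cs κ).1, (scan cs κ).2) := by
  simp only [scan, h, hf, if_true]

theorem scan_some {V : Type} [DecidableEq V] {c : Bool × DT V} {cs : List (Bool × DT V)} {κ : PA V}
    {τ : List (V × Bool)} (h : fp c.1 c.2 κ = some τ) (hf : fr κ τ ≠ []) :
    scan (c :: cs) κ = ([], some τ) := by
  simp only [scan, h, hf, if_false]

/-- A path all of whose variables are set gives the value. -/
theorem eval_of_fr_nil {V : Type} [DecidableEq V] {s : Bool} {t : DT V} {κ : PA V}
    {τ : List (V × Bool)} (h : fp s t κ = some τ) (hf : fr κ τ = []) {y : V → Bool} (hy : Ext κ y) :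
    t.eval y = s := by
  obtain ⟨h1, h2, _⟩ := (fp_t V s t κ).1 τ h
  refine eval_of_path h1 y (fun u hu => ?_)
  cases hk : κ u.1 with
  | none =>
    have : u.1 ∈ fr κ τ := mem_fr.2 ⟨List.mem_map_of_mem hu, hk⟩
    rw [hf] at this
    simp at this
  | some b =>
    rw [hy u.1 b hk]
    exact h2 u hu b hk

theorem scv_t : T_SCV := by
  intro V _ cs κ y hy
  induction cs with
  | nil => simp [scan]
  | cons c cs ih =>
    obtain ⟨h1, h2⟩ := ih
    cases hf : fp c.1 c.2 κ with
    | none =>
      have hv : (c.2.eval y == c.1) = false := by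
        rw [beq_eq_false_iff_ne]
        exact (fp_t V c.1 c.2 κ).2.1 hf y hy
      rw [scan_none hf, List.map_cons, hv]
      refine ⟨?_, fun h => ?_⟩
      · rw [List.cons_prefix_cons]
        exact ⟨rfl, h1⟩
      · simp only at h ⊢
        rw [h2 h]
    | some τ =>
      by_cases hn : fr κ τ = []
      · have hv : (c.2.eval y == c.1) = true := by
          rw [beq_iff_eq]
          exact eval_of_fr_nil hf hn hy
        rw [scan_true hf hn, List.map_cons, hv]
        refine ⟨?_, fun h => ?_⟩
        · rw [List.cons_prefix_cons]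
          exact ⟨rfl, h1⟩
        · simp only at h ⊢
          rw [h2 h]
      · rw [scan_some hf hn]
        exact ⟨List.nil_prefix, fun h => by simp at h⟩

theorem scs_t : T_SCS := by
  intro V _ cs κ τ h
  induction cs with
  | nil => simp [scan] at h
  | cons c cs ih =>
    cases hf : fp c.1 c.2 κ with
    | none =>
      rw [scan_none hf] at h
      obtain ⟨h1, h2, h3, c', h4, h5⟩ := ih h
      exact ⟨h1, h2, h3, c', List.mem_cons_of_mem _ h4, h5⟩
    | some τ' =>
      by_cases hn : fr κ τ' = []
      · rw [scan_true hf hn] at h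
        obtain ⟨h1, h2, h3, c', h4, h5⟩ := ih h
        exact ⟨h1, h2, h3, c', List.mem_cons_of_mem _ h4, h5⟩
      · rw [scan_some hf hn] at h
        simp only [Option.some.injEq] at h
        subst h
        obtain ⟨h1, h2, h3⟩ := (fp_t V c.1 c.2 κ).1 τ' hf
        exact ⟨hn, h2, h3, c, List.mem_cons_self, h1⟩

theorem scm_t : T_SCM := by
  intro V _ cs κ κ' τ h hs ha
  induction cs with
  | nil => simp [scan] at h
  | cons c cs ih =>
    have hF := fp_t V c.1 c.2
    cases hf : fp c.1 c.2 κ with
    | none =>
      have h1 : fp c.1 c.2 κ' = none := (hF κ').2.2 (fun y hy => (hF κ).2.1 hf y (hy.of_sub hs))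
      rw [scan_none hf] at h ⊢
      simp only [List.count_cons, Bool.false_eq_true, beq_iff_eq, if_false, add_zero, nxk, h1] at h ⊢
      exact ih h
    | some τ' =>
      by_cases hn : fr κ τ' = []
      · rw [scan_true hf hn] at h ⊢
        have h1 : fp c.1 c.2 κ' ≠ none := by
          intro h1
          have h2 := (hF κ').2.1 h1 (fun v => (κ' v).getD false) (fun v b hv => by simp [hv])
          exact h2 (eval_of_fr_nil hf hn (fun v b hv => by simp [hs v b hv]))
        obtain ⟨τ₁, h2⟩ := Option.ne_none_iff_exists'.1 h1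
        have hc : (true :: (scan cs κ).1).count true = (scan cs κ).1.count true + 1 := by simp
        simp only [hc, nxk, h2]
        exact ih h
      · rw [scan_some hf hn] at h ⊢
        simp only [Option.some.injEq] at h
        subst h
        have := fpl_t V c.1 c.2 c.2 κ' κ τ' hs ha (fun _ _ => rfl) ((hF κ).1 _ hf).1 hf
        simp only [List.count_nil, nxk, this]

theorem scl_t : T_SCL := by
  intro V _ D κA κB csA csB hS hE
  have hsub := hE.sub
  induction hS with
  | nil => simp [scan]
  | @cons a b csA csB hab _ ih =>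
    obtain ⟨h1, h2, h3⟩ := hab
    obtain ⟨ih1, ih2, ih3⟩ := ih
    cases hf : fp b.1 b.2 κB with
    | none =>
      have h7 : fp a.1 a.2 κA = none := by
        rw [h1]
        exact (fp_t V b.1 a.2 κA).2.2 (fun y hy => by
          rw [h2 y hy]
          exact (fp_t V b.1 b.2 κB).2.1 hf y (hy.of_sub hsub))
      rw [scan_none hf, scan_none h7]
      refine ⟨?_, fun h => ?_, fun τ h hD => ?_⟩
      · rw [List.cons_prefix_cons]
        exact ⟨rfl, ih1⟩
      · rw [ih2 h]
      · rw [ih3 τ h hD]
    | some τ' =>
      obtain ⟨h4, h5, h6⟩ := (fp_t V b.1 b.2 κB).1 _ hf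
      have key : Avoid D τ' → fp a.1 a.2 κA = some τ' ∧ fr κA τ' = fr κB τ' := by
        intro hD
        have hag : Agree κA τ' := fun c hc x hx => h5 c hc x (by rw [← hE.1 c.1 (hD c hc)]; exact hx)
        have h7 := fpl_t V b.1 a.2 b.2 κA κB τ' hsub hag h2 (h3 _ _ h4 hD) hf
        refine ⟨by rw [h1]; exact h7, ?_⟩
        unfold fr
        congr 1
        apply List.filter_congr
        intro v hv
        rw [List.mem_map] at hv
        obtain ⟨c, hc, rfl⟩ := hv
        rw [hE.1 c.1 (hD c hc)]
      by_cases hn : fr κB τ' = []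
      · have hD : Avoid D τ' := by
          intro c hc hcD
          have : c.1 ∈ fr κB τ' := mem_fr.2 ⟨List.mem_map_of_mem hc, hE.2 _ hcD⟩
          rw [hn] at this
          simp at this
        obtain ⟨h7, h8⟩ := key hD
        rw [scan_true hf hn, scan_true h7 (h8.trans hn)]
        refine ⟨?_, fun h => ?_, fun τ h hD => ?_⟩
        · rw [List.cons_prefix_cons]
          exact ⟨rfl, ih1⟩
        · rw [ih2 h]
        · rw [ih3 τ h hD]
      · rw [scan_some hf hn]
        refine ⟨List.nil_prefix, fun h => by simp at h, fun τ h hD => ?_⟩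
        simp only [Option.some.injEq] at h
        subst h
        obtain ⟨h7, h8⟩ := key hD
        rw [scan_some h7 (by rw [h8]; exact hn)]

end Pool.Agent.H75.QG
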